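import Pool.Agent.H58.S13.Fields
import Pool.Agent.H58.S13.Five

/-!
# S13: local solubility, approximate zeros

`App ν S`: the quadratic form of `S` has primitive integral approximate zeros for the valuation `ν`; `AppV` for pairs.
-/

set_option autoImplicit false

namespace Pool.Agent.H48.S13

open Matrix Pool.Agent.H58.S13 WithZero IsDedekindDomain

variable {n : Type*} [Fintype n]

/-- approximate common zeros -/
def AppV {K : Type*} [Field K] (ν : Valuation K ℤᵐ⁰) (A B : Matrix n n K) : Prop :=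
  ∀ γ : ℤᵐ⁰, γ ≠ 0 → ∃ x : n → K, (∀ i, ν (x i) ≤ 1) ∧ (∃ i, ν (x i) = 1) ∧ ν (qf A x) < γ ∧ ν (qf B x) < γ

/-- approximate zeros -/
def App {K : Type*} [Field K] (ν : Valuation K ℤᵐ⁰) (S : Matrix n n K) : Prop :=
  ∀ γ : ℤᵐ⁰, γ ≠ 0 → ∃ x : n → K, (∀ i, ν (x i) ≤ 1) ∧ (∃ i, ν (x i) = 1) ∧ ν (qf S x) < γ

theorem exists_bound {K : Type*} [Field K] (ν : Valuation K ℤᵐ⁰) (A : Matrix n n K) :
    ∃ c : ℤᵐ⁰, 1 ≤ c ∧ ∀ i j, ν (A i j) ≤ c := by
  classical
  obtain ⟨c, hc⟩ : ∃ c : ℤᵐ⁰, c = (Finset.univ : Finset (n × n)).sup (fun p => ν (A p.1 p.2)) := ⟨_, rfl⟩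
  refine ⟨max 1 c, le_max_left _ _, fun i j => (le_max_right _ _).trans' ?_⟩
  rw [hc]
  exact Finset.le_sup (f := fun p : n × n => ν (A p.1 p.2)) (Finset.mem_univ (i, j))

theorem val_sum_le {K : Type*} [Field K] (ν : Valuation K ℤᵐ⁰) {ι : Type*} (s : Finset ι) (f : ι → K) (c : ℤᵐ⁰)
    (h : ∀ i ∈ s, ν (f i) ≤ c) : ν (∑ i ∈ s, f i) ≤ c :=
  ν.map_sum_le h

/-- continuity of quadratic forms -/
theorem qf_sub_le {K : Type*} [Field K] (ν : Valuation K ℤᵐ⁰) (A : Matrix n n K) (c N δ : ℤᵐ⁰)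
    (hc : ∀ i j, ν (A i j) ≤ c) (x y : n → K) (hx : ∀ i, ν (x i) ≤ N) (hy : ∀ i, ν (y i) ≤ N)
    (hxy : ∀ i, ν (x i - y i) ≤ δ) : ν (qf A x - qf A y) ≤ c * N * δ := by
  rw [qf_eq, qf_eq, ← Finset.sum_sub_distrib]
  refine val_sum_le ν _ _ _ fun i _ => ?_
  rw [← Finset.sum_sub_distrib]
  refine val_sum_le ν _ _ _ fun j _ => ?_
  have e1 : A i j * (x i * x j) - A i j * (y i * y j) = A i j * ((x i - y i) * x j + y i * (x j - y j)) := by ring
  rw [e1, map_mul, mul_assoc]
  refine mul_le_mul' (hc i j) ((ν.map_add _ _).trans (max_le ?_ ?_))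
  · rw [map_mul, mul_comm]
    exact mul_le_mul' (hx j) (hxy i)
  · rw [map_mul]
    exact mul_le_mul' (hy i) (hxy j)

/-- a small nonzero radius -/
theorem exists_small (c γ : ℤᵐ⁰) (hγ : γ ≠ 0) : ∃ δ : ℤᵐ⁰, δ ≠ 0 ∧ δ < 1 ∧ c * δ < γ := by
  rcases eq_or_ne c 0 with hc | hc
  · exact ⟨exp (-1), exp_ne_zero, by rw [← exp_zero, exp_lt_exp]; decide, by
      rw [hc, zero_mul]
      exact zero_lt_iff.2 hγ⟩
  · have h1 : exp (-1 : ℤ) < (1 : ℤᵐ⁰) := by rw [← exp_zero, exp_lt_exp]; decide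
    have h2 : c⁻¹ * (γ * exp (-1 : ℤ)) ≠ 0 := mul_ne_zero (inv_ne_zero hc) (mul_ne_zero hγ exp_ne_zero)
    refine ⟨min (exp (-1 : ℤ)) (c⁻¹ * (γ * exp (-1 : ℤ))), ?_, (min_le_left _ _).trans_lt h1, ?_⟩
    · rcases min_choice (exp (-1 : ℤ)) (c⁻¹ * (γ * exp (-1 : ℤ))) with h | h
      · rw [h]; exact exp_ne_zero
      · rw [h]; exact h2
    · refine (mul_le_mul_right (min_le_right _ _) c).trans_lt ?_
      rw [mul_inv_cancel_left₀ hc]
      calc γ * exp (-1 : ℤ) < γ * 1 := by
            exact (mul_lt_mul_iff_right₀ (zero_lt_iff.2 hγ)).2 h1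
        _ = γ := mul_one γ

/-- a coordinate of largest valuation -/
theorem exists_max {K : Type*} [Field K] (ν : Valuation K ℤᵐ⁰) (x : n → K) (hx : x ≠ 0) :
    ∃ i, x i ≠ 0 ∧ ∀ j, ν (x j) ≤ ν (x i) := by
  classical
  obtain ⟨j, hj⟩ := Function.ne_iff.1 hx
  obtain ⟨i, _, hi⟩ := Finset.exists_max_image Finset.univ (fun i => ν (x i)) ⟨j, Finset.mem_univ j⟩
  refine ⟨i, ?_, fun j => hi j (Finset.mem_univ j)⟩
  rintro h0
  have := hi j (Finset.mem_univ j)
  rw [h0, map_zero, le_zero_iff, ν.zero_iff] at this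
  exact hj this

/-- primitive scaling -/
theorem exists_prim {K : Type*} [Field K] (ν : Valuation K ℤᵐ⁰) (x : n → K) (hx : x ≠ 0) :
    ∃ i, x i ≠ 0 ∧ (∀ j, ν ((x i)⁻¹ * x j) ≤ 1) ∧ ν ((x i)⁻¹ * x i) = 1 := by
  obtain ⟨i, hi, hj⟩ := exists_max ν x hx
  refine ⟨i, hi, fun j => ?_, by rw [inv_mul_cancel₀ hi, map_one]⟩
  rw [map_mul, map_inv₀]
  have h0 : 0 < ν (x i) := zero_lt_iff.2 ((ν.ne_zero_iff).2 hi)
  exact (inv_mul_le_one₀ h0).2 (hj j)

/-- density of the field in its completion -/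
theorem exists_approx (K : Type*) [Field K] [NumberField K] (v : HeightOneSpectrum (NumberField.RingOfIntegers K))
    (x : v.adicCompletion K) (γ : ℤᵐ⁰) (hγ : γ ≠ 0) :
    ∃ a : K, Valued.v (x - algebraMap K (v.adicCompletion K) a) < γ := by
  obtain ⟨g, hg⟩ := v.valuedAdicCompletion_surjective K γ
  have hU : {y : v.adicCompletion K | Valued.v.restrict (y - x) < Valued.v.restrict g} ∈ nhds x := by
    rw [Valued.mem_nhds]
    refine ⟨Units.mk0 (Valued.v.restrict g) ?_, fun y hy => hy⟩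
    rw [Ne, Valuation.restrict_eq_zero_iff, hg]
    exact hγ
  obtain ⟨a, ha⟩ := (v.denseRange_algebraMap K).exists_mem_open isOpen_interior ⟨x, mem_interior_iff_mem_nhds.2 hU⟩
  refine ⟨a, ?_⟩
  have h1 := interior_subset ha
  rw [Set.mem_ofPred_eq, Valuation.restrict_lt_iff, hg, Valuation.map_sub_swap] at h1
  exact h1

/-- a zero over the completion gives approximate zeros -/
theorem appV_of_completion (K : Type*) [Field K] [NumberField K] (v : HeightOneSpectrum (NumberField.RingOfIntegers K))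
    (A B : Matrix n n K) (x : n → v.adicCompletion K) (hx : x ≠ 0)
    (hA : qf (A.map (algebraMap K (v.adicCompletion K))) x = 0)
    (hB : qf (B.map (algebraMap K (v.adicCompletion K))) x = 0) : AppV (v.valuation K) A B := by
  classical
  intro γ hγ
  obtain ⟨i, hi, hi1, hi2⟩ := exists_prim (Valued.v : Valuation (v.adicCompletion K) ℤᵐ⁰) x hx
  obtain ⟨c1, hc1, hcA⟩ := exists_bound (Valued.v : Valuation (v.adicCompletion K) ℤᵐ⁰)
    (A.map (algebraMap K (v.adicCompletion K)))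
  obtain ⟨c2, hc2, hcB⟩ := exists_bound (Valued.v : Valuation (v.adicCompletion K) ℤᵐ⁰)
    (B.map (algebraMap K (v.adicCompletion K)))
  obtain ⟨δ, hδ0, hδ1, hδ2⟩ := exists_small (max c1 c2) γ hγ
  choose a ha using fun j => exists_approx K v ((x i)⁻¹ * x j) δ hδ0
  have hval : ∀ b : K, Valued.v (algebraMap K (v.adicCompletion K) b) = v.valuation K b := fun b => by
    exact HeightOneSpectrum.valuedAdicCompletion_eq_valuation' v b
  have ha1 : ∀ j, Valued.v (algebraMap K (v.adicCompletion K) (a j)) ≤ 1 := by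
    intro j
    have e1 : algebraMap K (v.adicCompletion K) (a j) =
        (x i)⁻¹ * x j - ((x i)⁻¹ * x j - algebraMap K (v.adicCompletion K) (a j)) := by ring
    rw [e1]
    exact (Valuation.map_sub _ _ _).trans (max_le (hi1 j) ((ha j).le.trans hδ1.le))
  have hq : ∀ (S : Matrix n n K) (c : ℤᵐ⁰), c ≤ max c1 c2 →
      (∀ i j, Valued.v ((S.map (algebraMap K (v.adicCompletion K))) i j) ≤ c) →
      qf (S.map (algebraMap K (v.adicCompletion K))) x = 0 → v.valuation K (qf S a) < γ := by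
    intro S c hcc hcS hS
    have h1 := qf_sub_le (Valued.v : Valuation (v.adicCompletion K) ℤᵐ⁰) (S.map (algebraMap K (v.adicCompletion K)))
      c 1 δ hcS (fun j => algebraMap K (v.adicCompletion K) (a j)) (fun j => (x i)⁻¹ * x j) ha1 hi1
      (fun j => by rw [Valuation.map_sub_swap]; exact (ha j).le)
    rw [qf_smul, hS, mul_zero, sub_zero, qf_map, hval, mul_one] at h1
    exact h1.trans_lt ((mul_le_mul_left hcc δ).trans_lt hδ2)
  refine ⟨a, fun j => ?_, ⟨i, ?_⟩, hq A c1 (le_max_left _ _) hcA hA, hq B c2 (le_max_right _ _) hcB hB⟩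
  · rw [← hval]
    exact ha1 j
  · rw [← hval]
    have e1 : algebraMap K (v.adicCompletion K) (a i) =
        (x i)⁻¹ * x i - ((x i)⁻¹ * x i - algebraMap K (v.adicCompletion K) (a i)) := by ring
    rw [e1, Valuation.map_sub_eq_of_lt_left _ (by rw [hi2]; exact (ha i).trans hδ1), hi2]

/-- approximate zeros pass to extensions -/
theorem AppV.map {K L : Type*} [Field K] [NumberField K] [Field L] [NumberField L] [Algebra K L]
    (w : HeightOneSpectrum (NumberField.RingOfIntegers L)) (A B : Matrix n n K)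
    (h : AppV ((w.under (NumberField.RingOfIntegers K)).valuation K) A B) :
    AppV (w.valuation L) (A.map (algebraMap K L)) (B.map (algebraMap K L)) := by
  intro γ hγ
  obtain ⟨x, hx1, ⟨i, hi⟩, hA, hB⟩ := h (min γ 1) (by
    rcases min_choice γ 1 with h | h
    · rw [h]; exact hγ
    · rw [h]; exact one_ne_zero)
  have hlo : w.asIdeal.LiesOver (w.under (NumberField.RingOfIntegers K)).asIdeal := ⟨rfl⟩
  have hval : ∀ z : K, w.valuation L (algebraMap K L z) = ((w.under (NumberField.RingOfIntegers K)).valuation K z) ^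
      (w.under (NumberField.RingOfIntegers K)).asIdeal.ramificationIdx' w.asIdeal := fun z =>
    (HeightOneSpectrum.valuation_liesOver L (w.under (NumberField.RingOfIntegers K)) w z).symm
  have he : (w.under (NumberField.RingOfIntegers K)).asIdeal.ramificationIdx' w.asIdeal ≠ 0 :=
    Ideal.IsDedekindDomain.ramificationIdx'_ne_zero_of_liesOver w.asIdeal (w.under (NumberField.RingOfIntegers K)).ne_bot
  have hsm : ∀ z : K, (w.under (NumberField.RingOfIntegers K)).valuation K z < min γ 1 → w.valuation L (algebraMap K L z) < γ := by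
    intro z hz
    rw [hval]
    exact (pow_le_of_le_one zero_le (hz.le.trans (min_le_right _ _)) he).trans_lt (hz.trans_le (min_le_left _ _))
  refine ⟨fun j => algebraMap K L (x j), fun j => ?_, ⟨i, ?_⟩, ?_, ?_⟩
  · rw [hval]
    exact pow_le_one' (hx1 j) _
  · rw [hval, hi, one_pow]
  · rw [qf_map]
    exact hsm _ hA
  · rw [qf_map]
    exact hsm _ hB

theorem qf_add_mul {R : Type*} [CommRing R] (A B : Matrix n n R) (t : R) (y : n → R) :
    qf (A + t • B) y = qf A y + t * qf B y := by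
  rw [qf_eq, qf_eq, qf_eq, Finset.mul_sum, ← Finset.sum_add_distrib]
  refine Finset.sum_congr rfl fun i _ => ?_
  rw [Finset.mul_sum, ← Finset.sum_add_distrib]
  refine Finset.sum_congr rfl fun j _ => ?_
  rw [Matrix.add_apply, Matrix.smul_apply, smul_eq_mul]
  ring

/-- the vertex of a cone with a nonsingular principal minor -/
theorem exists_vertex {M : Type*} [Field M] (S : Matrix (Fin 5) (Fin 5) M) (hdet : S.det = 0) (i : Fin 5)
    (hmin : (S.submatrix i.succAbove i.succAbove).det ≠ 0) : ∃ e : Fin 5 → M, S *ᵥ e = 0 ∧ e i = 1 := by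
  obtain ⟨e, he0, he⟩ := Matrix.exists_mulVec_eq_zero_iff.2 hdet
  have hei : e i ≠ 0 := by
    intro h0
    apply hmin
    rw [← Matrix.exists_mulVec_eq_zero_iff]
    refine ⟨fun j => e (i.succAbove j), ?_, ?_⟩
    · intro hz
      apply he0
      funext a
      rcases Fin.eq_self_or_eq_succAbove i a with ha | ⟨b, hb⟩
      · rw [ha, h0]; rfl
      · rw [hb]
        exact congrFun hz b
    · funext b
      have h1 := congrFun he (i.succAbove b)
      rw [Matrix.mulVec, dotProduct, Fin.sum_univ_succAbove _ i, h0, mul_zero, zero_add] at h1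
      exact h1
  refine ⟨(e i)⁻¹ • e, by rw [Matrix.mulVec_smul, he, smul_zero], ?_⟩
  rw [Pi.smul_apply, smul_eq_mul, inv_mul_cancel₀ hei]

/-- projection from the vertex -/
theorem qf_proj {M : Type*} [Field M] (S : Matrix (Fin 5) (Fin 5) M) (hS : Sᵀ = S) (i : Fin 5) (e : Fin 5 → M)
    (he : S *ᵥ e = 0) (hei : e i = 1) (y : Fin 5 → M) :
    qf (S.submatrix i.succAbove i.succAbove) (fun j => y (i.succAbove j) - y i * e (i.succAbove j)) = qf S y := by
  have h1 : y = y i • e + (i.insertNth (0 : M) (fun j => y (i.succAbove j) - y i * e (i.succAbove j)) : Fin 5 → M) := by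
    funext a
    rcases Fin.eq_self_or_eq_succAbove i a with ha | ⟨b, hb⟩
    · rw [ha, Pi.add_apply, Pi.smul_apply, hei, Fin.insertNth_apply_same, smul_eq_mul, mul_one, add_zero]
    · rw [hb, Pi.add_apply, Pi.smul_apply, Fin.insertNth_apply_succAbove, smul_eq_mul]
      ring
  have h2 := qf_add_ker hS he (y i) (i.insertNth (0 : M) (fun j => y (i.succAbove j) - y i * e (i.succAbove j)))
  rw [← h1, qf_insert] at h2
  exact h2.symm

/-- approximate zeros of the base of a cone -/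
theorem app_minor {M : Type*} [Field M] (ν : Valuation M ℤᵐ⁰) (A B S : Matrix (Fin 5) (Fin 5) M) (t : M)
    (hSd : S = A + t • B) (hS : Sᵀ = S) (hdet : S.det = 0) (i : Fin 5)
    (hmin : (S.submatrix i.succAbove i.succAbove).det ≠ 0) (hker : ∀ z, S *ᵥ z = 0 → z ≠ 0 → qf B z ≠ 0)
    (h : AppV ν A B) : App ν (S.submatrix i.succAbove i.succAbove) := by
  classical
  obtain ⟨e, he, hei⟩ := exists_vertex S hdet i hmin
  have he0 : e ≠ 0 := by
    rintro rfl
    exact zero_ne_one hei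
  have hB := hker e he he0
  obtain ⟨N, hN1, hN⟩ : ∃ N : ℤᵐ⁰, 1 ≤ N ∧ ∀ j, ν (e j) ≤ N := by
    obtain ⟨a, _, ha⟩ := exists_max ν e he0
    exact ⟨max 1 (ν (e a)), le_max_left _ _, fun j => (ha j).trans (le_max_right _ _)⟩
  have hN0 : N ≠ 0 := (zero_lt_one.trans_le hN1).ne'
  obtain ⟨cB, _, hcB⟩ := exists_bound ν B
  obtain ⟨η, hη⟩ : ∃ η, η = (N ^ 2)⁻¹ * ν (qf B e) := ⟨_, rfl⟩
  have hη0 : η ≠ 0 := by
    rw [hη]
    exact mul_ne_zero (inv_ne_zero (pow_ne_zero _ hN0)) ((ν.ne_zero_iff).2 hB)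
  obtain ⟨δ, hδ0, hδ1, hδ2⟩ := exists_small (cB * N) η hη0
  intro γ hγ
  obtain ⟨δ', hδ'0, _, hδ'2⟩ := exists_small (max 1 (ν t)) (δ ^ 2 * γ) (mul_ne_zero (pow_ne_zero _ hδ0) hγ)
  obtain ⟨y, hy1, ⟨j0, hj0⟩, hyA, hyB⟩ := h (min δ' η) (by
    rcases min_choice δ' η with h | h
    · rw [h]; exact hδ'0
    · rw [h]; exact hη0)
  obtain ⟨z, hz⟩ : ∃ z : Fin 4 → M, z = fun j => y (i.succAbove j) - y i * e (i.succAbove j) := ⟨_, rfl⟩
  have hye : ∀ j, ν (y i * e j) ≤ N := fun j => by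
    rw [map_mul]
    calc ν (y i) * ν (e j) ≤ 1 * N := mul_le_mul' (hy1 i) (hN j)
      _ = N := one_mul N
  -- some coordinate of `z` is not small
  have hbig : ∃ j, δ < ν (z j) := by
    by_contra hc
    push Not at hc
    have h1 : ∀ a, ν (y a - y i * e a) ≤ δ := by
      intro a
      rcases Fin.eq_self_or_eq_succAbove i a with ha | ⟨b, hb⟩
      · rw [ha, hei, mul_one, sub_self, map_zero]
        exact zero_le
      · rw [hb]
        have := hc b
        rw [hz] at this
        exact this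
    have h2 : ν (qf B y - qf B (fun a => y i * e a)) ≤ cB * N * δ :=
      qf_sub_le ν B cB N δ hcB y (fun a => y i * e a) (fun a => (hy1 a).trans hN1) hye h1
    have h3 : ν (y i * e j0) = 1 := by
      have e1 : y i * e j0 = y j0 - (y j0 - y i * e j0) := by ring
      rw [e1, Valuation.map_sub_eq_of_lt_left _ (by rw [hj0]; exact (h1 j0).trans_lt hδ1), hj0]
    have h4 : N⁻¹ ≤ ν (y i) := by
      rw [map_mul] at h3
      have h5 : ν (e j0) ≠ 0 := right_ne_zero_of_mul (by rw [h3]; exact one_ne_zero)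
      rw [eq_inv_of_mul_eq_one_left h3]
      exact (inv_le_inv₀ (zero_lt_iff.2 hN0) (zero_lt_iff.2 h5)).2 (hN j0)
    have h6 : η ≤ ν (qf B (fun a => y i * e a)) := by
      rw [qf_smul, map_mul, map_pow, hη, ← inv_pow]
      exact mul_le_mul_left (pow_le_pow_left' h4 2) _
    have h7 : ν (qf B (fun a => y i * e a)) < η := by
      have e1 : qf B (fun a => y i * e a) = qf B y - (qf B y - qf B (fun a => y i * e a)) := by ring
      rw [e1]
      exact (Valuation.map_sub _ _ _).trans_lt (max_lt (hyB.trans_le (min_le_right _ _)) (h2.trans_lt hδ2))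
    exact absurd h6 (not_le.2 h7)
  obtain ⟨j1, hj1⟩ := hbig
  have hz0 : z ≠ 0 := by
    rintro h0
    rw [h0, Pi.zero_apply, map_zero] at hj1
    exact absurd hj1 (not_lt.2 zero_le)
  obtain ⟨a, ha0, ha⟩ := exists_max ν z hz0
  have haδ : δ < ν (z a) := hj1.trans_le (ha j1)
  have hza : ν (z a) ≠ 0 := (ν.ne_zero_iff).2 ha0
  refine ⟨fun j => (z a)⁻¹ * z j, fun j => ?_, ⟨a, by
    show ν ((z a)⁻¹ * z a) = 1
    rw [inv_mul_cancel₀ ha0, map_one]⟩, ?_⟩
  · rw [map_mul, map_inv₀]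
    exact (inv_mul_le_one₀ (zero_lt_iff.2 hza)).2 (ha j)
  · rw [qf_smul, hz, qf_proj S hS i e he hei y, ← hz, map_mul, map_pow, map_inv₀]
    have hSy : ν (qf S y) < δ ^ 2 * γ := by
      have e1 : qf S y = qf A y + t * qf B y := by rw [hSd, qf_add_mul]
      rw [e1]
      refine lt_of_le_of_lt ((ν.map_add _ _).trans ?_) hδ'2
      refine max_le ?_ ?_
      · calc ν (qf A y) ≤ δ' := (hyA.trans_le (min_le_left _ _)).le
          _ = 1 * δ' := (one_mul _).symm
          _ ≤ max 1 (ν t) * δ' := mul_le_mul_left (le_max_left _ _) _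
      · rw [map_mul]
        exact mul_le_mul' (le_max_right _ _) (hyB.trans_le (min_le_left _ _)).le
    rw [inv_pow, inv_mul_lt_iff₀ (pow_pos (zero_lt_iff.2 hza) 2)]
    exact hSy.trans_le (mul_le_mul_left (pow_le_pow_left' haδ.le 2) γ)

theorem pen_symm {k M : Type*} [Field k] [Field M] [Algebra k M] (A B : Matrix (Fin 5) (Fin 5) k) (hA : Aᵀ = A)
    (hB : Bᵀ = B) (t : M) : (pen A B t)ᵀ = pen A B t := by
  unfold pen
  rw [Matrix.transpose_add, Matrix.transpose_smul, ← Matrix.transpose_map, ← Matrix.transpose_map, hA, hB]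

/-- finite places -/
theorem local_app {k M : Type*} [Field k] [NumberField k] [Field M] [NumberField M] [Algebra k M]
    (A B : Matrix (Fin 5) (Fin 5) k) (hA : Aᵀ = A) (hB : Bᵀ = B)
    (hloc : ∀ v : HeightOneSpectrum (NumberField.RingOfIntegers k), ∃ x : Fin 5 → v.adicCompletion k, x ≠ 0 ∧
      qf (A.map (algebraMap k (v.adicCompletion k))) x = 0 ∧ qf (B.map (algebraMap k (v.adicCompletion k))) x = 0)
    (t : M) (i : Fin 5) (hdet : (pen A B t).det = 0)
    (hker : ∀ z, (pen A B t) *ᵥ z = 0 → z ≠ 0 → qf (B.map (algebraMap k M)) z ≠ 0)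
    (hmin : ((pen A B t).submatrix i.succAbove i.succAbove).det ≠ 0)
    (w : HeightOneSpectrum (NumberField.RingOfIntegers M)) :
    App (w.valuation M) ((pen A B t).submatrix i.succAbove i.succAbove) := by
  obtain ⟨x, hx0, hx1, hx2⟩ := hloc (w.under (NumberField.RingOfIntegers k))
  exact app_minor (w.valuation M) (A.map (algebraMap k M)) (B.map (algebraMap k M)) (pen A B t) t rfl
    (pen_symm A B hA hB t) hdet i hmin hker (AppV.map w A B (appV_of_completion k _ A B x hx0 hx1 hx2))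

/-- real places -/
theorem local_real {k M : Type*} [Field k] [Field M] [Algebra k M]
    (A B : Matrix (Fin 5) (Fin 5) k) (hA : Aᵀ = A) (hB : Bᵀ = B)
    (hreal : ∀ τ : k →+* ℝ, ∃ x : Fin 5 → ℝ, x ≠ 0 ∧ qf (A.map τ) x = 0 ∧ qf (B.map τ) x = 0)
    (t : M) (i : Fin 5) (hdet : (pen A B t).det = 0)
    (hker : ∀ z, (pen A B t) *ᵥ z = 0 → z ≠ 0 → qf (B.map (algebraMap k M)) z ≠ 0)
    (hmin : ((pen A B t).submatrix i.succAbove i.succAbove).det ≠ 0) (σ : M →+* ℝ) :
    ∃ x : Fin 4 → ℝ, x ≠ 0 ∧ qf (((pen A B t).submatrix i.succAbove i.succAbove).map σ) x = 0 := by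
  obtain ⟨x, hx0, hxA, hxB⟩ := hreal (σ.comp (algebraMap k M))
  obtain ⟨e, he, hei⟩ := exists_vertex (pen A B t) hdet i hmin
  have he0 : e ≠ 0 := by
    rintro rfl
    exact zero_ne_one hei
  have heS : ((pen A B t).map σ) *ᵥ (fun j => σ (e j)) = 0 := by
    funext a
    have h1 := congrArg σ (congrFun he a)
    rw [Pi.zero_apply, map_zero, Matrix.mulVec, dotProduct, map_sum] at h1
    rw [Pi.zero_apply, ← h1, Matrix.mulVec, dotProduct]
    refine Finset.sum_congr rfl fun b _ => ?_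
    rw [Matrix.map_apply, map_mul]
  have hS : ((pen A B t).map σ)ᵀ = (pen A B t).map σ := by
    rw [← Matrix.transpose_map, pen_symm A B hA hB t]
  have hpr := qf_proj ((pen A B t).map σ) hS i (fun j => σ (e j)) heS (by
    show σ (e i) = 1
    rw [hei, map_one]) x
  have hSm : (pen A B t).map σ = A.map (σ.comp (algebraMap k M)) + σ t • B.map (σ.comp (algebraMap k M)) := by
    ext a b
    simp [pen]
  refine ⟨fun j => x (i.succAbove j) - x i * σ (e (i.succAbove j)), ?_, ?_⟩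
  · intro hz
    have hx : x = fun a => x i * σ (e a) := by
      funext a
      rcases Fin.eq_self_or_eq_succAbove i a with ha | ⟨b, hb⟩
      · rw [ha, hei, map_one, mul_one]
      · rw [hb]
        have h1 := congrFun hz b
        rw [Pi.zero_apply] at h1
        exact sub_eq_zero.1 h1
    have hxi : x i ≠ 0 := by
      intro h0
      apply hx0
      rw [hx, h0]
      funext a
      rw [zero_mul]
      rfl
    rw [hx, qf_smul] at hxB
    have h2 : qf (B.map (σ.comp (algebraMap k M))) (fun a => σ (e a)) = σ (qf (B.map (algebraMap k M)) e) := by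
      rw [← qf_map, Matrix.map_map]
      rfl
    rw [h2] at hxB
    rcases mul_eq_zero.1 hxB with h3 | h3
    · exact hxi (pow_eq_zero_iff two_ne_zero |>.1 h3)
    · exact hker e he he0 ((map_eq_zero σ).1 h3)
  · rw [← Matrix.submatrix_map, hpr, hSm, qf_add_mul, hxA, hxB, mul_zero, add_zero]

end Pool.Agent.H48.S13
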