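import Pool.Agent.H58.S13.Odd

/-!
# S13: reduction of the existence of rational points on smooth pencils of quadrics in P^4 to pencils whose lines are
defined over a Galois extension of degree a power of 2

`PP A B = det (A + X B)`. `Smooth A B`: `A`, `B` symmetric, the quintic form `det (s A + t B)` has no multiple root.
`Cones A B`: the quintic splits and the discriminants of its five quadratic forms of rank four are squares (for a smooth
pencil: the 16 lines are defined over the ground field).
-/

set_option autoImplicit false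

namespace Pool.Agent.H48.S13

open Matrix Polynomial Pool.Agent.H58.S13

/-- `det (A + X B)` -/
noncomputable def PP {K : Type*} [CommRing K] (A B : Matrix (Fin 5) (Fin 5) K) : K[X] :=
  (A.map C + (X : K[X]) • B.map C).det

/-- the base locus of the pencil is smooth (of dimension two) -/
def Smooth {K : Type*} [Field K] (A B : Matrix (Fin 5) (Fin 5) K) : Prop :=
  Aᵀ = A ∧ Bᵀ = B ∧ (PP A B).Separable ∧ 4 ≤ (PP A B).natDegree

/-- the five singular quadrics and their rulings are defined over the ground field -/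
def Cones {M : Type*} [Field M] (A B : Matrix (Fin 5) (Fin 5) M) : Prop :=
  (PP A B).Splits ∧ ∀ s t : M, s ≠ 0 ∨ t ≠ 0 → (s • A + t • B).det = 0 → ∀ i, IsSquare ((s • A + t • B).adjugate i i)

/-- the lines are defined over a Galois extension of degree a power of two -/
def Two (K : Type) [Field K] (A B : Matrix (Fin 5) (Fin 5) K) : Prop :=
  ∃ (M : Type) (_ : Field M) (_ : Algebra K M), FiniteDimensional K M ∧ IsGalois K M ∧
    (∃ n, Module.finrank K M = 2 ^ n) ∧ Cones (A.map (algebraMap K M)) (B.map (algebraMap K M))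

theorem PP_map {K L : Type*} [CommRing K] [CommRing L] (φ : K →+* L) (A B : Matrix (Fin 5) (Fin 5) K) :
    PP (A.map φ) (B.map φ) = (PP A B).map φ := by
  unfold PP
  rw [← Polynomial.coe_mapRingHom, RingHom.map_det]
  congr 1
  ext i j : 2
  simp

theorem PP_eval {K : Type*} [CommRing K] (A B : Matrix (Fin 5) (Fin 5) K) (x : K) :
    (PP A B).eval x = (A + x • B).det := by
  unfold PP
  rw [← Polynomial.coe_evalRingHom, RingHom.map_det]
  congr 1
  ext i j : 2
  simp
  exact mul_comm _ _

theorem Smooth.map {K L : Type*} [Field K] [Field L] (φ : K →+* L) {A B : Matrix (Fin 5) (Fin 5) K}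
    (h : Smooth A B) : Smooth (A.map φ) (B.map φ) := by
  obtain ⟨h1, h2, h3, h4⟩ := h
  refine ⟨by rw [← Matrix.transpose_map, h1], by rw [← Matrix.transpose_map, h2], ?_, ?_⟩
  · rw [PP_map]
    exact h3.map
  · rw [PP_map, Polynomial.natDegree_map]
    exact h4

theorem isSquare_adj {M : Type*} [Field M] (A B : Matrix (Fin 5) (Fin 5) M)
    (hf : ∀ x : M, (PP A B).eval x = 0 → ∀ i, IsSquare ((A + x • B).adjugate i i))
    (hi : ∀ i, IsSquare (B.adjugate i i)) (s t : M) (_ : s ≠ 0 ∨ t ≠ 0) (hd : (s • A + t • B).det = 0) (i : Fin 5) :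
    IsSquare ((s • A + t • B).adjugate i i) := by
  rcases eq_or_ne s 0 with hs | hs
  · obtain ⟨w, hw⟩ := hi i
    rw [hs, zero_smul, zero_add, Matrix.adjugate_smul, Matrix.smul_apply, hw, Fintype.card_fin]
    exact ⟨t ^ 2 * w, by rw [smul_eq_mul]; ring⟩
  · have e1 : s • A + t • B = s • (A + (t / s) • B) := by
      rw [smul_add, smul_smul, mul_div_cancel₀ _ hs]
    rw [e1] at hd ⊢
    rw [Matrix.det_smul, Fintype.card_fin] at hd
    have hd1 : (A + (t / s) • B).det = 0 := (mul_eq_zero.1 hd).resolve_left (pow_ne_zero _ hs)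
    obtain ⟨w, hw⟩ := hf (t / s) (by rw [PP_eval, hd1]) i
    rw [Matrix.adjugate_smul, Matrix.smul_apply, hw, Fintype.card_fin]
    exact ⟨s ^ 2 * w, by rw [smul_eq_mul]; ring⟩

/-- the lines are defined over a finite Galois extension -/
theorem exists_cones (K : Type) [Field K] [CharZero K] (A B : Matrix (Fin 5) (Fin 5) K) (hP : PP A B ≠ 0) :
    ∃ (M : Type) (_ : Field M) (_ : Algebra K M), FiniteDimensional K M ∧ IsGalois K M ∧
      Cones (A.map (algebraMap K M)) (B.map (algebraMap K M)) := by
  classical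
  have hsq : ∀ z : AlgebraicClosure K, ∃ w, z = w * w := fun z => IsAlgClosed.exists_eq_mul_self z
  choose r hr using hsq
  obtain ⟨T, hT⟩ : ∃ T : Finset (AlgebraicClosure K), T = ((PP A B).aroots (AlgebraicClosure K)).toFinset := ⟨_, rfl⟩
  obtain ⟨A', hA'⟩ : ∃ A' : Matrix (Fin 5) (Fin 5) (AlgebraicClosure K), A' = A.map (algebraMap K _) := ⟨_, rfl⟩
  obtain ⟨B', hB'⟩ : ∃ B' : Matrix (Fin 5) (Fin 5) (AlgebraicClosure K), B' = B.map (algebraMap K _) := ⟨_, rfl⟩
  obtain ⟨S, hS⟩ : ∃ S : Finset (AlgebraicClosure K), S = T ∪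
      (T ×ˢ Finset.univ).image (fun p : AlgebraicClosure K × Fin 5 => r ((A' + p.1 • B').adjugate p.2 p.2)) ∪
      Finset.univ.image (fun i : Fin 5 => r (B'.adjugate i i)) := ⟨_, rfl⟩
  obtain ⟨F, hF⟩ : ∃ F : IntermediateField K (AlgebraicClosure K), F = IntermediateField.adjoin K (S : Set (AlgebraicClosure K)) :=
    ⟨_, rfl⟩
  haveI hFf : FiniteDimensional K F := by
    rw [hF]
    exact IntermediateField.finiteDimensional_adjoin fun x _ => Algebra.IsIntegral.isIntegral x
  obtain ⟨M, hM⟩ : ∃ M : IntermediateField K (AlgebraicClosure K), M = IntermediateField.normalClosure K F (AlgebraicClosure K) :=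
    ⟨_, rfl⟩
  haveI hMf : FiniteDimensional K M := by
    rw [hM]
    exact normalClosure.is_finiteDimensional K F (AlgebraicClosure K)
  haveI hMn : Normal K M := by
    rw [hM]
    exact normalClosure.normal K F (AlgebraicClosure K)
  have hFM : ∀ x ∈ S, x ∈ M := by
    intro x hx
    rw [hM]
    refine IntermediateField.le_normalClosure F ?_
    rw [hF]
    exact IntermediateField.subset_adjoin K _ hx
  have hcomp : ∀ z : K, algebraMap M (AlgebraicClosure K) (algebraMap K M z) = algebraMap K (AlgebraicClosure K) z :=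
    fun z => (IsScalarTower.algebraMap_apply K M (AlgebraicClosure K) z).symm
  have hAM : (A.map (algebraMap K M)).map (algebraMap M (AlgebraicClosure K)) = A' := by
    rw [hA', Matrix.map_map]
    congr 1
  have hBM : (B.map (algebraMap K M)).map (algebraMap M (AlgebraicClosure K)) = B' := by
    rw [hB', Matrix.map_map]
    congr 1
  refine ⟨M, inferInstance, inferInstance, hMf, ⟨⟩, ?_⟩
  have hback : ∀ (Z : Matrix (Fin 5) (Fin 5) M) (i : Fin 5),
      r ((Z.map (algebraMap M (AlgebraicClosure K))).adjugate i i) ∈ M → IsSquare (Z.adjugate i i) := by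
    intro Z i h
    have h1 := hr ((Z.map (algebraMap M (AlgebraicClosure K))).adjugate i i)
    obtain ⟨w, hw⟩ : ∃ w : M, algebraMap M (AlgebraicClosure K) w =
        r ((Z.map (algebraMap M (AlgebraicClosure K))).adjugate i i) := ⟨⟨_, h⟩, rfl⟩
    rw [← hw] at h1
    refine ⟨w, (algebraMap M (AlgebraicClosure K)).injective ?_⟩
    rw [RingHom.map_mul, ← h1]
    have h2 := RingHom.map_adjugate (algebraMap M (AlgebraicClosure K)) Z
    rw [RingHom.mapMatrix_apply, RingHom.mapMatrix_apply] at h2
    rw [← h2]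
    rfl
  refine ⟨?_, ?_⟩
  · rw [PP_map]
    refine IntermediateField.splits_of_splits (IsAlgClosed.splits _) fun x hx => ?_
    refine hFM x ?_
    rw [hS, Finset.mem_union, Finset.mem_union]
    left; left
    rw [hT, Multiset.mem_toFinset, mem_aroots]
    rw [mem_rootSet] at hx
    exact hx
  · refine isSquare_adj _ _ ?_ ?_
    · intro x hx i
      refine hback _ i (hFM _ ?_)
      rw [hS, Finset.mem_union, Finset.mem_union]
      left; right
      rw [Finset.mem_image]
      refine ⟨((algebraMap M (AlgebraicClosure K)) x, i), ?_, ?_⟩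
      · rw [Finset.mem_product]
        refine ⟨?_, Finset.mem_univ _⟩
        show algebraMap M (AlgebraicClosure K) x ∈ T
        rw [hT, Multiset.mem_toFinset, mem_aroots]
        refine ⟨hP, ?_⟩
        rw [PP_map, eval_map_algebraMap] at hx
        rw [aeval_algebraMap_apply, hx, map_zero]
      · show r ((A' + (algebraMap M (AlgebraicClosure K)) x • B').adjugate i i) = _
        rw [← hAM, ← hBM]
        congr 3
    · intro i
      refine hback _ i (hFM _ ?_)
      rw [hS, Finset.mem_union, hBM]
      right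
      exact Finset.mem_image_of_mem _ (Finset.mem_univ _)

/-- the fixed field of a Sylow 2-subgroup -/
theorem sylow_field (K M : Type) [Field K] [Field M] [Algebra K M] [FiniteDimensional K M] [IsGalois K M] :
    ∃ F : IntermediateField K M, Odd (Module.finrank K F) ∧ ∃ n, Module.finrank F M = 2 ^ n := by
  haveI : Fact (Nat.Prime 2) := ⟨Nat.prime_two⟩
  obtain ⟨P⟩ : Nonempty (Sylow 2 (M ≃ₐ[K] M)) := inferInstance
  have h1 : Module.finrank (IntermediateField.fixedField (P : Subgroup (M ≃ₐ[K] M))) M = Nat.card P :=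
    IntermediateField.finrank_fixedField_eq_card (P : Subgroup (M ≃ₐ[K] M))
  obtain ⟨n, hn⟩ := P.isPGroup'.exists_card_eq
  refine ⟨IntermediateField.fixedField (P : Subgroup (M ≃ₐ[K] M)), ?_, n, ?_⟩
  · have h2 : Module.finrank K M = Nat.card (M ≃ₐ[K] M) := (IsGalois.card_aut_eq_finrank K M).symm
    have h3 : Module.finrank K (IntermediateField.fixedField (P : Subgroup (M ≃ₐ[K] M))) *
        Module.finrank (IntermediateField.fixedField (P : Subgroup (M ≃ₐ[K] M))) M = Module.finrank K M :=
      Module.finrank_mul_finrank _ _ _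
    have h4 : Nat.card P * (P : Subgroup (M ≃ₐ[K] M)).index = Nat.card (M ≃ₐ[K] M) :=
      Subgroup.card_mul_index _
    have h5 : ¬ 2 ∣ (P : Subgroup (M ≃ₐ[K] M)).index := P.not_dvd_index
    have h6 : 0 < Nat.card P := Nat.card_pos
    have h7 : Module.finrank K (IntermediateField.fixedField (P : Subgroup (M ≃ₐ[K] M))) =
        (P : Subgroup (M ≃ₐ[K] M)).index := by
      rw [h1, h2, ← h4, mul_comm] at h3
      exact Nat.eq_of_mul_eq_mul_left h6 h3
    rw [h7, ← Nat.not_even_iff_odd, even_iff_two_dvd]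
    exact h5
  · rw [h1]
    exact hn

/-- (R) -/
theorem reduction (Φ : ∀ (K : Type) [Field K] [NumberField K], Matrix (Fin 5) (Fin 5) K → Matrix (Fin 5) (Fin 5) K → Prop)
    (hΦ : ∀ (K L : Type) [Field K] [NumberField K] [Field L] [NumberField L] [Algebra K L], Odd (Module.finrank K L) →
      ∀ A B : Matrix (Fin 5) (Fin 5) K, Smooth A B → Φ K A B → Φ L (A.map (algebraMap K L)) (B.map (algebraMap K L)))
    (h2 : ∀ (K : Type) [Field K] [NumberField K] (A B : Matrix (Fin 5) (Fin 5) K), Smooth A B → Two K A B → Φ K A B →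
      ∃ x : Fin 5 → K, x ≠ 0 ∧ qf A x = 0 ∧ qf B x = 0)
    (K : Type) [Field K] [NumberField K] (A B : Matrix (Fin 5) (Fin 5) K) (hs : Smooth A B) (hK : Φ K A B) :
    ∃ x : Fin 5 → K, x ≠ 0 ∧ qf A x = 0 ∧ qf B x = 0 := by
  obtain ⟨M, hM1, hM2, hM3, hM4, hM5⟩ := exists_cones K A B (by
    rintro h0
    have := hs.2.2.2
    rw [h0, natDegree_zero] at this
    omega)
  obtain ⟨F, hF1, hF2⟩ := sylow_field K M
  haveI : NumberField F := NumberField.of_module_finite K F
  have hF3 : Two F (A.map (algebraMap K F)) (B.map (algebraMap K F)) := by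
    refine ⟨M, inferInstance, inferInstance, inferInstance, inferInstance, hF2, ?_⟩
    rw [Matrix.map_map, Matrix.map_map]
    exact hM5
  obtain ⟨x, hx0, hx1, hx2⟩ := h2 F _ _ (hs.map _) hF3 (hΦ K F hF1 A B hs hK)
  exact odd_descent hF1 A B x hx0 hx1 hx2

/-- over a field over which the lines are defined over a 2-extension one singular quadric is rational -/
theorem Two.exists_root {K : Type} [Field K] {A B : Matrix (Fin 5) (Fin 5) K} (hs : Smooth A B)
    (h : Two K A B) : ∃ s t : K, (s ≠ 0 ∨ t ≠ 0) ∧ (s • A + t • B).det = 0 := by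
  obtain ⟨_, _, _, h4⟩ := hs
  have hPe : PP A B = ((X : K[X]) • B.map C + A.map C).det := by
    unfold PP
    rw [add_comm]
  have h5 : (PP A B).natDegree ≤ 5 := by
    have := Polynomial.natDegree_det_X_add_C_le B A
    rw [Fintype.card_fin] at this
    rw [hPe]
    exact this
  have h6 : (PP A B).coeff 5 = B.det := by
    have := Polynomial.coeff_det_X_add_C_card B A
    rw [Fintype.card_fin] at this
    rw [hPe]
    exact this
  rcases eq_or_ne B.det 0 with h7 | h7
  · exact ⟨0, 1, Or.inr one_ne_zero, by rw [zero_smul, zero_add, one_smul, h7]⟩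
  · have h8 : (PP A B).natDegree = 5 := by
      refine le_antisymm h5 (le_natDegree_of_ne_zero ?_)
      rw [h6]
      exact h7
    obtain ⟨q, hq1, hq2, hq3⟩ := exists_odd_factor (PP A B) (by rw [h8]; decide)
    obtain ⟨M, _, _, hfd, hgal, ⟨n, hn⟩, hc⟩ := h
    have hsp : ((PP A B).map (algebraMap K M)).Splits := by
      rw [← PP_map]
      exact hc.1
    have hP0 : PP A B ≠ 0 := by
      intro h0
      rw [h0, natDegree_zero] at h8
      omega
    have hq4 : (q.map (algebraMap K M)).Splits :=
      hsp.of_dvd ((map_ne_zero hP0)) (Polynomial.map_dvd _ hq2)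
    have hq5 : q.natDegree ∣ 2 ^ n := by
      rw [← hn]
      exact hq1.natDegree_dvd_finrank hq4
    have hq6 : q.natDegree = 1 := by
      obtain ⟨m, _, hm⟩ := (Nat.dvd_prime_pow Nat.prime_two).1 hq5
      rw [hm] at hq3 ⊢
      rcases Nat.eq_zero_or_pos m with h0 | h0
      · rw [h0, pow_zero]
      · exact absurd hq3 (Nat.not_odd_iff_even.2 ((Nat.even_pow.2 ⟨even_two, h0.ne'⟩)))
    obtain ⟨x, hx⟩ := Polynomial.exists_root_of_degree_eq_one ((degree_eq_iff_natDegree_eq hq1.ne_zero).2 hq6)
    refine ⟨1, x, Or.inl one_ne_zero, ?_⟩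
    rw [one_smul, ← PP_eval]
    exact eval_eq_zero_of_dvd_of_eval_eq_zero hq2 hx

end Pool.Agent.H48.S13
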